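import Pool.Agent.Helper264.NT.NearExp

/-!
# Logarithms and powers with algebraic exponents, at all algebraic points near almost every point

The question is whether `log α` and `α ^ β` are algebraically independent for algebraic `α` and irrational algebraic `β`.

There is one set `E` of complex numbers of Hausdorff dimension `0` such that for all complex `z` outside of `E` in the slit plane
(the plane without the real numbers `≤ 0`), all real algebraic numbers `β_1, …, β_m` such that `1, β_1, …, β_m` are linearly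
independent over `ℚ` (for `m = 1`: all irrational real algebraic `β`), all number fields `K ⊂ ℂ`, all degrees `d`, all `A` and
ALL exponents `w > 0` (arbitrarily small) there are `B` and `T₀` such that for all `T ≥ T₀`, at ALL numbers `α` in `K` of height at
most `T` with `|α - z| ≤ T ^ (-w)`, the numbers `π`, `log α`, `α ^ β_1, …, α ^ β_m` have no relation over `K` of partial degrees
at most `d` and height at most `T ^ A`, not even an approximate one: all values are greater than `T ^ (-B)`. For `w < 1` there are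
many such rational `α` for all large `T`. The result below is for several points `α_1, …, α_n`, outside of a set in `ℂ ^ n` of
dimension at most `2 n - 2`.

Proof: the exceptional tuples lie on `C T ^ ε` hypersurfaces of degree at most `D` (`Pool.Agent.Y771.KF.stdK` of helper771 and
helper124), and the points near such hypersurfaces form a set of small dimension (uniform coverings of the zeros of polynomials
of bounded degree, `Pool.Agent.Helper264.NT.mainK`).
-/

set_option autoImplicit false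

open Height
open scoped ENNReal

namespace Pool.Agent.Results.MP_655169_nt.LogsPowersNearEveryPoint

/-- the functions `log t` and `t ^ β_i = e ^ (β_i log t)`, principal branches -/
noncomputable def fn {m : ℕ} (β : Fin m → ℝ) (q : Option (Fin m)) (t : ℂ) : ℂ :=
  q.elim (Complex.log t) fun i => Complex.exp ((β i : ℂ) * Complex.log t)

/-- the frequencies `1, β_1, …, β_m` -/
def freq {m : ℕ} (β : Fin m → ℝ) (q : Option (Fin m)) : ℝ := q.elim 1 β

lemma fn_an {m : ℕ} (β : Fin m → ℝ) (q : Option (Fin m)) : AnalyticOnNhd ℂ (fn β q) Complex.slitPlane := by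
  intro t ht
  cases q with
  | none => exact analyticAt_id.clog ht
  | some i => exact (analyticAt_const.mul (analyticAt_id.clog ht)).cexp

lemma slit_preconn : IsPreconnected Complex.slitPlane :=
  (Complex.starConvex_one_slitPlane.isPathConnected Complex.one_mem_slitPlane).isConnected.isPreconnected

lemma fn_indep {m : ℕ} (β : Fin m → ℝ) (hβ : LinearIndependent ℚ (freq β)) :
    Pool.Agent.Y771.KF.AIndepS (fn β) Complex.slitPlane := by
  classical
  intro P hP
  have h0 : MvPolynomial.rename (Equiv.swap (none : Option (Option (Fin m))) (some none)) P = 0 := by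
    refine Pool.Agent.Helper264.NT.exp_indep (freq β) hβ _ fun k => ?_
    rw [MvPolynomial.eval_rename]
    have h6 : Complex.exp (k : ℂ) = ((Real.exp k : ℝ) : ℂ) := by push_cast; rfl
    have h2 : Complex.exp (k : ℂ) ∈ Complex.slitPlane := by
      rw [h6, Complex.ofReal_mem_slitPlane]
      exact Real.exp_pos _
    have h5 : Complex.log (Complex.exp (k : ℂ)) = k := by
      rw [h6, ← Complex.ofReal_log (Real.exp_pos _).le, Real.log_exp]
      push_cast
      rfl
    have h4 := hP _ h2
    rw [← h4]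
    congr 2
    funext o
    rcases o with _ | _ | i
    · simp [freq]
    · simp [fn, h5]
    · rw [Function.comp_apply, Equiv.swap_apply_of_ne_of_ne (by simp) (by simp)]
      simp [fn, freq, h5]
  exact (map_eq_zero_iff _ (MvPolynomial.rename_injective _ (Equiv.injective _))).1 h0

/-- the numbers `π`, `log α_j`, `α_j ^ β_i` -/
noncomputable def numbers {m n : ℕ} (β : Fin m → ℝ) (s : Fin n → ℂ) (x : Option (Fin n × Option (Fin m))) : ℂ :=
  x.elim (Real.pi : ℂ) fun c => fn β c.2 (s c.1)

/-- every nonzero polynomial in `(m + 1) n + 1` variables with coefficients in `K` of height at most `T ^ A`, of degree at most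
`d` in each variable, takes at the numbers `π`, `log α_j`, `α_j ^ β_i` a value of absolute value greater than `T ^ (-B)` -/
def Measure {m n : ℕ} (β : Fin m → ℝ) (K : IntermediateField ℚ ℂ) [NumberField K] (d : ℕ) (A B T : ℝ) (s : Fin n → K) :
    Prop :=
  ∀ P : MvPolynomial (Option (Fin n × Option (Fin m))) K, P ≠ 0 → (∀ i, P.degreeOf i ≤ d) →
    (∀ e, mulHeight₁ (P.coeff e) ≤ T ^ A) →
      T ^ (-B) < ‖MvPolynomial.eval₂ (algebraMap K ℂ) (numbers β fun j => (s j : ℂ)) P‖

lemma one_tuple {m : ℕ} (β : Fin m → ℝ) (hβ : LinearIndependent ℚ (freq β)) (n : ℕ) (hn : 1 ≤ n) :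
    ∃ E : Set (Fin n → ℂ), dimH E ≤ ((2 * (n - 1) : ℕ) : ℝ≥0∞) ∧ ∀ z ∉ E, (∀ j, z j ∈ Complex.slitPlane) →
      ∀ (K : IntermediateField ℚ ℂ) [NumberField K] (d : ℕ) (A w : ℝ), 0 < w → ∃ B T₀ : ℝ, ∀ T ≥ T₀,
        ∀ s : Fin n → K, (∀ j, mulHeight₁ (s j) ≤ T ∧ ‖(s j : ℂ) - z j‖ ≤ T ^ (-w)) → Measure β K d A B T s := by
  classical
  have hnn : Nonempty (Fin n) := ⟨⟨0, hn⟩⟩
  obtain ⟨E, hE1, hE2⟩ := Pool.Agent.Helper264.NT.mainK (𝕜 := ℂ) (X := Fin n) (RingHom.id ℂ) (fun _ => rfl)
    (fun _ => fn β) (fun _ : Unit => Real.pi) (fun _ => Complex.slitPlane)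
    (fun _ => Complex.isOpen_slitPlane) (fun _ => slit_preconn)
    (fun _ q => fn_an β q) (fun _ => fn_indep β hβ) Pool.Agent.Y124.goodXi_pi
  refine ⟨E, by simpa using hE1, fun z hz hz1 K _ d A w hw => ?_⟩
  obtain ⟨B, T0, h⟩ := hE2 z hz hz1 K d A w hw
  refine ⟨B, T0, fun T hT s hs => ?_⟩
  refine Pool.Agent.Helper264.NT.norel_rename (Equiv.optionEquivSumPUnit (Fin n × Option (Fin m))) (algebraMap K ℂ)
    (fun _ => fn β) (fun _ : Unit => Real.pi) d A B T s (h T hT s hs) (fun k => (hs k).1) _ ?_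
  intro o
  cases o <;> rfl

/-- **Theorem.** Let `n ≥ 1`. There is a subset `E` of `ℂ ^ n` of Hausdorff dimension at most `2 (n - 1)` such that for all `z`
outside of `E` whose coordinates are in the slit plane, all real algebraic `β_1, …, β_m` such that `1, β_1, …, β_m` are linearly
independent over `ℚ`, all number fields `K ⊂ ℂ`, all `d`, `A` and `w > 0` there are `B` and `T₀` such that for all `T ≥ T₀` and
all `n`-tuples `s` of elements of `K` of height at most `T` with `|s_j - z_j| ≤ T ^ (-w)` the numbers `π`, `log s_j`,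
`s_j ^ β_i` have the property `Measure`. -/
theorem result (n : ℕ) (hn : 1 ≤ n) :
    ∃ E : Set (Fin n → ℂ), dimH E ≤ ((2 * (n - 1) : ℕ) : ℝ≥0∞) ∧ ∀ z ∉ E, (∀ j, z j ∈ Complex.slitPlane) →
      ∀ (m : ℕ) (β : Fin m → ℝ), (∀ i, IsAlgebraic ℚ (β i)) → LinearIndependent ℚ (freq β) →
      ∀ (K : IntermediateField ℚ ℂ) [NumberField K] (d : ℕ) (A w : ℝ), 0 < w → ∃ B T₀ : ℝ, ∀ T ≥ T₀,
        ∀ s : Fin n → K, (∀ j, mulHeight₁ (s j) ≤ T ∧ ‖(s j : ℂ) - z j‖ ≤ T ^ (-w)) → Measure β K d A B T s := by
  classical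
  have hex : ∀ (m : ℕ) (β : Fin m → ℝ), ∃ E : Set (Fin n → ℂ), dimH E ≤ ((2 * (n - 1) : ℕ) : ℝ≥0∞) ∧
      (LinearIndependent ℚ (freq β) → ∀ z ∉ E, (∀ j, z j ∈ Complex.slitPlane) →
      ∀ (K : IntermediateField ℚ ℂ) [NumberField K] (d : ℕ) (A w : ℝ), 0 < w → ∃ B T₀ : ℝ, ∀ T ≥ T₀,
        ∀ s : Fin n → K, (∀ j, mulHeight₁ (s j) ≤ T ∧ ‖(s j : ℂ) - z j‖ ≤ T ^ (-w)) → Measure β K d A B T s) := by
    intro m β
    by_cases hβ : LinearIndependent ℚ (freq β)
    · obtain ⟨E, h1, h2⟩ := one_tuple β hβ n hn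
      exact ⟨E, h1, fun _ => h2⟩
    · exact ⟨∅, by simp, fun h => absurd h hβ⟩
  choose E hE1 hE2 using hex
  have hc : ∀ m : ℕ, {β : Fin m → ℝ | ∀ i, β i ∈ {x : ℝ | IsAlgebraic ℚ x}}.Countable := fun m =>
    Set.countable_pi fun _ => Algebraic.countable ℚ ℝ
  refine ⟨⋃ m : ℕ, ⋃ β ∈ {β : Fin m → ℝ | ∀ i, β i ∈ {x : ℝ | IsAlgebraic ℚ x}}, E m β, ?_, ?_⟩
  · rw [dimH_iUnion]
    refine iSup_le fun m => ?_
    rw [dimH_bUnion (hc m)]
    exact iSup₂_le fun β _ => hE1 m β
  · intro z hz hz1 m β hβ hβ2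
    refine hE2 m β hβ2 z (fun h => hz ?_) hz1
    exact Set.mem_iUnion.2 ⟨m, Set.mem_iUnion₂.2 ⟨β, hβ, h⟩⟩

end Pool.Agent.Results.MP_655169_nt.LogsPowersNearEveryPoint
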